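import Pool.Agent.J6H80.BG.Stm2
import Pool.Agent.J6H48.BG.Lat
import Pool.Agent.J6H76.BG.SL
import Pool.Agent.J6H47.BG.SU

/-!
# GM: lower bound of second order for the two-body functional
-/

set_option autoImplicit false

open MeasureTheory UnitAddTorus
open scoped ENNReal ContDiff

namespace Pool.Agent.H751R2.LHY.G80.GM70

open Pool.Agent.J6H80.BG

noncomputable section

variable {v : (Fin 3 → ℝ) → ℝ}

/-- changing the gap in the two-body functional -/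
lemma Qf_gap (W : T3 → ℝ) (q μ μ' : ℝ) (B0 : Finset Mom) (c : Mom → ℝ) :
    Qf W q μ B0 c = Qf W q μ' B0 c + 2 * (μ - μ') * ∑ n ∈ B0, c n ^ 2 := by
  unfold Qf
  rw [Finset.mul_sum, add_assoc, ← Finset.sum_add_distrib]
  congr 1
  exact Finset.sum_congr rfl fun n _ => by ring

/-- lower bound for the number of pairs in the minimiser -/
lemma omega_low (hLAT : S_LAT) {m : ℝ} (hm : 0 < m) (hvm : Measurable v)
    (hv : Integrable v) (h0 : ∀ x, 0 ≤ v x) (he : ∀ x, v (-x) = v x) (hne : 0 < ∫ x, v x)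
    {G : ℝ} (hG : 0 < G) {ζ : ℝ} (hζ0 : 0 < ζ) (hζ1 : ζ < 1) :
    ∃ δ η0 : ℝ, 0 < δ ∧ 0 < η0 ∧ ∀ μ : ℝ, 0 < μ → μ ≤ δ → ∃ L : ℝ, 0 < L ∧ ∀ ℓ : ℝ, L ≤ ℓ →
      ∀ K : ℝ, 0 ≤ K → ∀ᶠ R : ℕ in Filter.atTop, ∀ c : Mom → ℝ,
        Scat (fun y => min (Wr v ℓ y) K) (1 / (2 * m) * (2 * Real.pi / ℓ) ^ 2) μ
          ((boxM R).erase 0) c →
        (G - η0) / ℓ ^ 3 ≤ gh (fun y => min (Wr v ℓ y) K) ((boxM R).erase 0) c 0 →
        (1 - ζ) ^ 3 * (G ^ 2 * Real.pi ^ 2 / (4 * P0 (1 / (2 * m)))) / √μ ≤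
          ℓ ^ 3 * ∑ n ∈ (boxM R).erase 0, c n ^ 2 := by
  obtain ⟨V0, hV0⟩ : ∃ V0, V0 = ∫ x, v x := ⟨_, rfl⟩
  rw [← hV0] at hne
  obtain ⟨b, hb⟩ : ∃ b, b = 1 / (2 * m) := ⟨_, rfl⟩
  have hb0 : 0 < b := by rw [hb]; positivity
  obtain ⟨τ, hτ⟩ : ∃ τ, τ = ζ * G / (2 * V0) := ⟨_, rfl⟩
  have hτ0 : 0 < τ := by rw [hτ]; positivity
  have hτV : τ * V0 = ζ * G / 2 := by rw [hτ]; field_simp
  obtain ⟨δc, hδc, hnear⟩ := near_cos hvm hv (ε := τ ^ 2 * V0 / 2) (by positivity)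
  obtain ⟨P, hP⟩ : ∃ P, P = b * δc := ⟨_, rfl⟩
  have hP0 : 0 < P := by rw [hP]; positivity
  have hPi := Real.pi_pos
  have hsP := Real.sqrt_pos.2 hP0
  have hPb := P0_pos hb0
  -- choice of δ
  obtain ⟨D, hD⟩ : ∃ D, D = 8 * Real.pi ^ 2 / √P + 1 := ⟨_, rfl⟩
  have hD0 : 0 < D := by rw [hD]; positivity
  refine ⟨(ζ * Real.pi ^ 2 / D) ^ 2, ζ * G / 2, by positivity, by positivity,
    fun μ hμ hμδ => ?_⟩
  have hsμ := Real.sqrt_pos.2 hμ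
  have hμD : D ≤ ζ * (Real.pi ^ 2 / √μ) := by
    have h1 : √μ ≤ ζ * Real.pi ^ 2 / D := by
      calc √μ ≤ √((ζ * Real.pi ^ 2 / D) ^ 2) := Real.sqrt_le_sqrt hμδ
        _ = _ := Real.sqrt_sq (by positivity)
    rw [le_div_iff₀ hD0] at h1
    rw [← mul_div_assoc, le_div_iff₀ hsμ]
    linarith
  obtain ⟨q1, hq1, hlat1⟩ := hLAT μ hμ (1 / 4) (by positivity)
  obtain ⟨q2, hq2, hlat2⟩ := hLAT P hP0 (Real.pi ^ 2 / √P) (by positivity)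
  obtain ⟨L1, hL1, hL1'⟩ := q_small hb0 hq1
  obtain ⟨L2, hL2, hL2'⟩ := q_small hb0 hq2
  refine ⟨L1 + L2 + 1 + 4 * P0 b / μ ^ 2, by positivity, fun ℓ hℓ K hK => ?_⟩
  have h4P : 0 < 4 * P0 b / μ ^ 2 := by positivity
  have hℓ1 : 1 ≤ ℓ := by linarith
  have hℓ0 : 0 < ℓ := by linarith
  have hℓ3 : 0 < ℓ ^ 3 := by positivity
  rw [← hb]
  obtain ⟨q, hq⟩ : ∃ q, q = b * (2 * Real.pi / ℓ) ^ 2 := ⟨_, rfl⟩
  have hq0 : 0 < q := by rw [hq]; positivity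
  rw [← hq]
  have hκ : ∀ n, 0 ≤ q * sq n := fun n => mul_nonneg hq0.le (sq_nonneg' n)
  obtain ⟨hs1, hb1⟩ := hlat1 q hq0 (by rw [hq]; exact hL1' ℓ (by linarith))
  obtain ⟨hs2, hb2⟩ := hlat2 q hq0 (by rw [hq]; exact hL2' ℓ (by linarith))
  have hqs := q_sqrt hb0 hℓ0 hq
  -- the lattice sum
  set f : Mom → ℝ := fun n => 1 / (q * sq n + μ) ^ 2 with hf
  have hf0 : ∀ n, 0 ≤ f n := fun n => by rw [hf]; positivity
  set SS := ∑' n : Fin 3 → ℤ, f n with hSS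
  have hSSlow : ℓ ^ 3 / P0 b * (Real.pi ^ 2 / √μ - 1 / 4) ≤ SS := by
    have h3 := (abs_le.1 hb1).1
    rw [hqs] at h3
    have h4 : Real.pi ^ 2 / √μ - 1 / 4 ≤ P0 b / ℓ ^ 3 * SS := by
      rw [hSS, hf]; linarith
    have h5 : SS = ℓ ^ 3 / P0 b * (P0 b / ℓ ^ 3 * SS) := by field_simp
    rw [h5]
    exact mul_le_mul_of_nonneg_left h4 (by positivity)
  have hlim : Filter.Tendsto (fun R : ℕ => ∑ n ∈ boxM R, f n) Filter.atTop (nhds SS) :=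
    hs1.hasSum.comp boxM_tendsto
  have hev := hlim.eventually (lt_mem_nhds (show SS - ℓ ^ 3 / P0 b * (1 / 4) < SS by
    have : 0 < ℓ ^ 3 / P0 b * (1 / 4) := by positivity
    linarith))
  have hf00 : f 0 ≤ ℓ ^ 3 / P0 b * (1 / 4) := by
    have h1 : f 0 = 1 / μ ^ 2 := by rw [hf]; simp [sq]
    have h2 : 4 * P0 b / μ ^ 2 ≤ ℓ ^ 3 := by
      have h3 : ℓ ≤ ℓ ^ 3 := by
        calc ℓ = ℓ ^ 1 := (pow_one ℓ).symm
          _ ≤ ℓ ^ 3 := pow_le_pow_right₀ hℓ1 (by norm_num)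
      linarith
    rw [h1]
    calc 1 / μ ^ 2 = (4 * P0 b / μ ^ 2) / P0 b * (1 / 4) := by field_simp
      _ ≤ _ := by gcongr
  have hlarge : ∀ F : Finset Mom, (∀ n ∈ F, P < q * sq n) →
      ∑ n ∈ F, f n ≤ ℓ ^ 3 / P0 b * (8 * Real.pi ^ 2 / √P) := by
    intro F hF
    calc ∑ n ∈ F, f n ≤ ∑ n ∈ F, 4 * (1 / (q * sq n + P) ^ 2) := by
          refine Finset.sum_le_sum fun n hn => ?_
          have h1 := hF n hn
          have h2 := hκ n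
          rw [hf]
          simp only
          rw [mul_one_div, div_le_div_iff₀ (by positivity) (by positivity)]
          have h3 : q * sq n + P ≤ 2 * (q * sq n + μ) := by linarith
          have h4 : (q * sq n + P) ^ 2 ≤ (2 * (q * sq n + μ)) ^ 2 :=
            pow_le_pow_left₀ (by positivity) h3 2
          linarith
      _ = 4 * ∑ n ∈ F, 1 / (q * sq n + P) ^ 2 := by rw [Finset.mul_sum]
      _ ≤ 4 * (2 * Real.pi ^ 2 * ℓ ^ 3 / (P0 b * √P)) :=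
          mul_le_mul_of_nonneg_left (lat_fin hb0 hℓ0 hP0 hq hs2 hb2 F) (by norm_num)
      _ = ℓ ^ 3 / P0 b * (8 * Real.pi ^ 2 / √P) := by field_simp; ring
  filter_upwards [hev] with R hR c hc hg0
  set B0 := (boxM R).erase 0 with hB0
  set WK : T3 → ℝ := fun y => min (Wr v ℓ y) K with hWK
  have hW := Wr_pot hvm hv he hℓ0
  have hWKp : Pot WK := pot_min hW hK
  -- the partial sum
  have h0mem : (0 : Mom) ∈ boxM R := by simp [boxM]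
  have hsum1 : ∑ n ∈ boxM R, f n = f 0 + ∑ n ∈ B0, f n := (Finset.add_sum_erase _ f h0mem).symm
  have hsum2 : ∑ n ∈ B0, f n = ∑ n ∈ B0.filter (fun n => q * sq n ≤ P), f n +
      ∑ n ∈ B0.filter (fun n => ¬ q * sq n ≤ P), f n :=
    (Finset.sum_filter_add_sum_filter_not _ _ _).symm
  have hsum3 := hlarge (B0.filter (fun n => ¬ q * sq n ≤ P)) (fun n hn =>
    not_le.1 (Finset.mem_filter.1 hn).2)
  have hSP : ℓ ^ 3 / P0 b * ((1 - ζ) * (Real.pi ^ 2 / √μ)) ≤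
      ∑ n ∈ B0.filter (fun n => q * sq n ≤ P), f n := by
    have h1 : ℓ ^ 3 / P0 b * D ≤ ℓ ^ 3 / P0 b * (ζ * (Real.pi ^ 2 / √μ)) :=
      mul_le_mul_of_nonneg_left hμD (by positivity)
    have h2 : ℓ ^ 3 / P0 b * D = ℓ ^ 3 / P0 b * (8 * Real.pi ^ 2 / √P) + ℓ ^ 3 / P0 b := by
      rw [hD]; ring
    have h3 : ℓ ^ 3 / P0 b * (Real.pi ^ 2 / √μ - 1 / 4) =
      ℓ ^ 3 / P0 b * (Real.pi ^ 2 / √μ) - ℓ ^ 3 / P0 b * (1 / 4) := by ring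
    have h4 : ℓ ^ 3 / P0 b * ((1 - ζ) * (Real.pi ^ 2 / √μ)) =
      ℓ ^ 3 / P0 b * (Real.pi ^ 2 / √μ) - ℓ ^ 3 / P0 b * (ζ * (Real.pi ^ 2 / √μ)) := by ring
    have h5 : 0 < ℓ ^ 3 / P0 b := by positivity
    linarith
  -- the coefficients
  have hc' : ScatW WK (fun n => q * sq n + μ) B0 c :=
    ⟨hc.even, fun n hn => by rw [hc.eq n hn]; ring⟩
  have hwpos : ∀ n ∈ B0, 0 < (fun n => q * sq n + μ) n := fun n _ => by
    have := hκ n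
    simp only
    linarith
  have hWKle : ∀ y, WK y ≤ Wr v ℓ y := fun y => min_le_left _ _
  have hIle : ∫ y, WK y ≤ V0 / ℓ ^ 3 := by
    rw [hV0, ← Wr_int_one hvm hv h0 hℓ0]
    exact integral_mono hWKp.int hW.int hWKle
  have hI0 : 0 ≤ ∫ y, WK y := integral_nonneg hWKp.nonneg
  have hgn : ∀ n ∈ B0.filter (fun n => q * sq n ≤ P), (1 - ζ) * G / ℓ ^ 3 ≤ gh WK B0 c n := by
    intro n hn
    have hnP := (Finset.mem_filter.1 hn).2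
    have h1 := ghW_near hWKp hwpos hc' n
    have h2 : 2 * ∫ y, WK y * (1 - cs n y) ≤ τ ^ 2 * V0 / ℓ ^ 3 := by
      have h3 := int_sub_cs_mono hW hWKp hWKle n
      rw [Wr_cos hvm hv h0 hℓ0 n] at h3
      have h4 : ∑ a, (2 * Real.pi / ℓ * (n a : ℝ)) ^ 2 ≤ δc := by
        have h2 : ∑ a, (2 * Real.pi / ℓ * (n a : ℝ)) ^ 2 = (2 * Real.pi / ℓ) ^ 2 * sq n := by
          rw [sq, Finset.mul_sum]
          exact Finset.sum_congr rfl (fun a _ => by ring)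
        rw [h2]
        have h3 : b * ((2 * Real.pi / ℓ) ^ 2 * sq n) ≤ b * δc := by
          rw [hq, hP] at hnP; linarith
        exact le_of_mul_le_mul_left h3 hb0
      have h5 := (hnear _ h4).le
      have h6 := mul_le_mul_of_nonneg_left h5 (show 0 ≤ (1 / ℓ ^ 3) by positivity)
      have h7 : 1 / ℓ ^ 3 * (τ ^ 2 * V0 / 2) = (τ ^ 2 * V0 / ℓ ^ 3) / 2 := by ring
      linarith
    have h3 : 0 ≤ 2 * ∫ y, WK y * (1 - cs n y) := by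
      have : 0 ≤ ∫ y, WK y * (1 - cs n y) :=
        integral_nonneg fun y => mul_nonneg (hWKp.nonneg y) (by linarith [cs_le_one n y])
      linarith
    have h4 : (gh WK B0 c 0 - gh WK B0 c n) ^ 2 ≤ (τ * V0 / ℓ ^ 3) ^ 2 := by
      calc (gh WK B0 c 0 - gh WK B0 c n) ^ 2 ≤ (∫ y, WK y) * (2 * ∫ y, WK y * (1 - cs n y)) := h1
        _ ≤ (V0 / ℓ ^ 3) * (τ ^ 2 * V0 / ℓ ^ 3) := mul_le_mul hIle h2 h3 (by positivity)
        _ = _ := by ring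
    have h5 := (abs_le_of_sq_le_sq' h4 (by positivity)).2
    have h6 : τ * V0 / ℓ ^ 3 = (ζ * G / 2) / ℓ ^ 3 := by rw [hτV]
    have h7 : (1 - ζ) * G / ℓ ^ 3 = (G - ζ * G / 2) / ℓ ^ 3 - (ζ * G / 2) / ℓ ^ 3 := by
      rw [← sub_div]; congr 1; ring
    rw [h7]
    linarith
  -- the final estimate
  have hcn : ∀ n ∈ B0.filter (fun n => q * sq n ≤ P),
      ((1 - ζ) * G / ℓ ^ 3) ^ 2 / 4 * f n ≤ c n ^ 2 := by
    intro n hn
    have h1 := hgn n hn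
    have h2 := hc'.eq n (Finset.mem_filter.1 hn).1
    have h3 : 0 < q * sq n + μ := by have := hκ n; linarith
    have h4 : c n = gh WK B0 c n / (2 * (q * sq n + μ)) := by
      rw [h2]; field_simp
    have hz : 0 ≤ (1 - ζ) * G / ℓ ^ 3 := by
      have : 0 < 1 - ζ := by linarith
      positivity
    rw [h4, div_pow _ (2 * (q * sq n + μ)), hf]
    simp only
    calc ((1 - ζ) * G / ℓ ^ 3) ^ 2 / 4 * (1 / (q * sq n + μ) ^ 2)
        = ((1 - ζ) * G / ℓ ^ 3) ^ 2 / (2 * (q * sq n + μ)) ^ 2 := by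
          rw [mul_pow 2 (q * sq n + μ)]
          rw [div_mul_div_comm, mul_one]
          norm_num
      _ ≤ _ := by gcongr
  calc (1 - ζ) ^ 3 * (G ^ 2 * Real.pi ^ 2 / (4 * P0 b)) / √μ
      = ℓ ^ 3 * (((1 - ζ) * G / ℓ ^ 3) ^ 2 / 4 *
          (ℓ ^ 3 / P0 b * ((1 - ζ) * (Real.pi ^ 2 / √μ)))) := by
        field_simp
    _ ≤ ℓ ^ 3 * (((1 - ζ) * G / ℓ ^ 3) ^ 2 / 4 *
          ∑ n ∈ B0.filter (fun n => q * sq n ≤ P), f n) := by gcongr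
    _ = ℓ ^ 3 * ∑ n ∈ B0.filter (fun n => q * sq n ≤ P),
          ((1 - ζ) * G / ℓ ^ 3) ^ 2 / 4 * f n := by rw [Finset.mul_sum]
    _ ≤ ℓ ^ 3 * ∑ n ∈ B0.filter (fun n => q * sq n ≤ P), c n ^ 2 := by
        gcongr with n hn
        exact hcn n hn
    _ ≤ ℓ ^ 3 * ∑ n ∈ B0, c n ^ 2 := by
        gcongr
        exact Finset.filter_subset _ _

/-- the first order bound, for all coefficients -/
lemma first (hSL : S_SL) {m : ℝ} (hm : 0 < m) (hvm : Measurable v)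
    (hv : Integrable v) (h0 : ∀ x, 0 ≤ v x) (he : ∀ x, v (-x) = v x) {η μ : ℝ} (hη : 0 < η)
    (hμ : 0 < μ) : ∃ L : ℝ, 0 < L ∧ ∀ ℓ : ℝ, L ≤ ℓ → ∃ K1 : ℝ, ∀ K, K1 ≤ K → 0 ≤ K →
      ∀ᶠ R : ℕ in Filter.atTop, ∀ c : Mom → ℝ,
        scatG m v - η ≤
          ℓ ^ 3 * Qf (fun y => min (Wr v ℓ y) K) (1 / (2 * m) * (2 * Real.pi / ℓ) ^ 2) μ
            ((boxM R).erase 0) c := by
  obtain ⟨L, hL, H⟩ := hGL_lemma hSL hm hvm hv h0 he (ε := η / 2) (by positivity)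
    (Δ := 2 * μ) (by positivity)
  refine ⟨L, hL, fun ℓ hℓ => ?_⟩
  have hℓ0 : 0 < ℓ := by linarith
  have hℓ3 : 0 < ℓ ^ 3 := by positivity
  obtain ⟨K1, hK1⟩ := H ℓ hℓ 1 (1 / ℓ ^ 3) (by positivity) (by field_simp; simp)
  refine ⟨K1, fun K hK hKn => Filter.Eventually.of_forall fun R c => ?_⟩
  have hPi := Real.pi_pos
  have hq0 : 0 < 1 / (2 * m) * (2 * Real.pi / ℓ) ^ 2 := by positivity
  have hWKp : Pot (fun y => min (Wr v ℓ y) K) := pot_min (Wr_pot hvm hv he hℓ0) hKn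
  obtain ⟨c', hc'⟩ := exists_scat hWKp hq0 hμ (boxM_sym R)
  have h1 := scat_min hWKp hq0 hμ hc' c
  have h2 := hK1 K hK hKn _ (boxM_sym R) c' hc'.even
  have e1 : 2 * μ / 2 = μ := by ring
  rw [e1] at h2
  have h3 := mul_le_mul_of_nonneg_left h2 (show 0 ≤ 2 * ℓ ^ 3 by positivity)
  have e2 : 2 * ℓ ^ 3 * (1 / ℓ ^ 3 * scatG m v / 2 - 1 / ℓ ^ 3 * (η / 2)) = scatG m v - η := by
    field_simp
  rw [e2] at h3
  have h4 := mul_le_mul_of_nonneg_left h1 hℓ3.le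
  push_cast at h3
  linarith

/-- the telescoping -/
lemma tele (hLAT : S_LAT) (hSL : S_SL) (hSU : S_SU) {m : ℝ} (hm : 0 < m) (hvm : Measurable v)
    (hv : Integrable v) (h0 : ∀ x, 0 ≤ v x) (he : ∀ x, v (-x) = v x) (hne : 0 < ∫ x, v x)
    {ζ : ℝ} (hζ0 : 0 < ζ) (hζ1 : ζ < 1) :
    ∃ δ η0 : ℝ, 0 < δ ∧ 0 < η0 ∧ ∀ s : ℝ, 0 < s → s < 1 → ∀ j : ℕ,
      ∀ μ : ℝ, 0 < μ → μ ≤ δ → ∀ η : ℝ, 0 < η → η ≤ η0 →
      ∃ L : ℝ, 0 < L ∧ ∀ ℓ : ℝ, L ≤ ℓ → ∃ K1 : ℝ, ∀ K, K1 ≤ K → 0 ≤ K →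
      ∀ᶠ R : ℕ in Filter.atTop, ∀ c : Mom → ℝ,
        scatG m v - η + (1 - ζ) ^ 3 * (scatG m v ^ 2 * Real.pi ^ 2 / (2 * P0 (1 / (2 * m)))) *
            ((1 + s) * (1 - s ^ j)) * √μ ≤
          ℓ ^ 3 * Qf (fun y => min (Wr v ℓ y) K) (1 / (2 * m) * (2 * Real.pi / ℓ) ^ 2) μ
            ((boxM R).erase 0) c := by
  have hG := scatG_pos hSU hm hvm hv h0 he hne
  obtain ⟨δ, η0, hδ, hη0, hom⟩ := omega_low hLAT hm hvm hv h0 he hne hG hζ0 hζ1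
  refine ⟨δ, η0, hδ, hη0, fun s hs0 hs1 j => ?_⟩
  set G := scatG m v with hGdef
  have hPb := P0_pos (show 0 < 1 / (2 * m) by positivity)
  obtain ⟨A, hA⟩ : ∃ A, A = (1 - ζ) ^ 3 * (G ^ 2 * Real.pi ^ 2 / (2 * P0 (1 / (2 * m)))) := ⟨_, rfl⟩
  have hPi := Real.pi_pos
  have hz1 : 0 < 1 - ζ := by linarith
  have hA0 : 0 < A := by rw [hA]; positivity
  rw [← hA]
  induction j with
  | zero =>
    intro μ hμ hμδ η hη hηη
    obtain ⟨L, hL, H⟩ := first hSL hm hvm hv h0 he hη hμ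
    refine ⟨L, hL, fun ℓ hℓ => ?_⟩
    obtain ⟨K1, hK1⟩ := H ℓ hℓ
    refine ⟨K1, fun K hK hKn => ?_⟩
    filter_upwards [hK1 K hK hKn] with R hR c
    have := hR c
    simpa using this
  | succ j ih =>
    intro μ hμ hμδ η hη hηη
    have hs2 : 0 < s ^ 2 := by positivity
    have hs21 : s ^ 2 < 1 := by nlinarith
    have hμ' : 0 < s ^ 2 * μ := by positivity
    have hμμ : s ^ 2 * μ ≤ μ := by nlinarith
    obtain ⟨L1, hL1, H1⟩ := ih (s ^ 2 * μ) hμ' (hμμ.trans hμδ) η hη hηη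
    obtain ⟨L2, hL2, H2⟩ := hom μ hμ hμδ
    refine ⟨L1 + L2, by positivity, fun ℓ hℓ => ?_⟩
    have hℓ0 : 0 < ℓ := by linarith
    have hℓ3 : 0 < ℓ ^ 3 := by positivity
    obtain ⟨K1, hK1⟩ := H1 ℓ (by linarith)
    refine ⟨K1, fun K hK hKn => ?_⟩
    filter_upwards [hK1 K hK hKn, H2 ℓ (by linarith) K hKn] with R hR1 hR2 c
    obtain ⟨q, hq⟩ : ∃ q, q = 1 / (2 * m) * (2 * Real.pi / ℓ) ^ 2 := ⟨_, rfl⟩
    have hq0 : 0 < q := by rw [hq]; positivity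
    rw [← hq] at hR1 hR2 ⊢
    set WK : T3 → ℝ := fun y => min (Wr v ℓ y) K with hWK
    have hWKp : Pot WK := pot_min (Wr_pot hvm hv he hℓ0) hKn
    obtain ⟨c', hc'⟩ := exists_scat hWKp hq0 hμ (boxM_sym R)
    have h1 := scat_min hWKp hq0 hμ hc' c
    have h2 := hR1 c'
    have h3 := Qf_gap WK q μ (s ^ 2 * μ) ((boxM R).erase 0) c'
    set om := ∑ n ∈ (boxM R).erase 0, c' n ^ 2 with homd
    have hom0 : 0 ≤ om := Finset.sum_nonneg fun n _ => sq_nonneg _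
    have hsj : s ^ j ≤ 1 := pow_le_one₀ hs0.le hs1.le
    have hsq : √(s ^ 2 * μ) = s * √μ := by
      rw [Real.sqrt_mul (by positivity), Real.sqrt_sq hs0.le]
    have hsμ := Real.sqrt_pos.2 hμ
    have hμs : μ = √μ * √μ := (Real.mul_self_sqrt hμ.le).symm
    -- the coefficient at zero
    have h4 : (G - η0) / ℓ ^ 3 ≤ gh WK ((boxM R).erase 0) c' 0 := by
      rw [scat_Q hWKp hc', div_le_iff₀ hℓ3, h3]
      have h5 : 0 ≤ A * ((1 + s) * (1 - s ^ j)) * √(s ^ 2 * μ) := by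
        have : 0 ≤ 1 - s ^ j := by linarith
        positivity
      have h6 : 0 ≤ ℓ ^ 3 * (2 * (μ - s ^ 2 * μ) * om) := by
        have : 0 ≤ μ - s ^ 2 * μ := by linarith
        positivity
      nlinarith
    have h5 := hR2 c' hc' h4
    have h6 : A / (2 * √μ) ≤ ℓ ^ 3 * om := by
      refine le_trans (le_of_eq ?_) h5
      rw [hA]; field_simp; ring
    have h7 : A * (1 - s ^ 2) * √μ ≤ ℓ ^ 3 * (2 * (μ - s ^ 2 * μ) * om) := by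
      have h8 : 0 ≤ 2 * (μ - s ^ 2 * μ) := by linarith
      calc A * (1 - s ^ 2) * √μ = 2 * (μ - s ^ 2 * μ) * (A / (2 * √μ)) := by
            have e : μ - s ^ 2 * μ = (1 - s ^ 2) * (√μ * √μ) := by
              rw [← hμs]; ring
            rw [e]; field_simp
        _ ≤ 2 * (μ - s ^ 2 * μ) * (ℓ ^ 3 * om) := mul_le_mul_of_nonneg_left h6 h8
        _ = _ := by ring
    have h8 := mul_le_mul_of_nonneg_left h1 hℓ3.le
    rw [h3, mul_add] at h8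
    rw [hsq] at h2
    have h9 : A * ((1 + s) * (1 - s ^ (j + 1))) * √μ =
        A * ((1 + s) * (1 - s ^ j)) * (s * √μ) + A * (1 - s ^ 2) * √μ := by
      rw [pow_succ]; ring
    rw [h9]
    linarith

lemma choice {X ε : ℝ} (hX : 0 < X) (hε : 0 < ε) : ∃ ζ : ℝ, 0 < ζ ∧ ζ < 1 ∧ ∃ s : ℝ, 0 < s ∧ s < 1 ∧
    ∃ j : ℕ, 2 * X - ε ≤ (1 - ζ) ^ 3 * X * ((1 + s) * (1 - s ^ j)) := by
  obtain ⟨ζ, hζ⟩ : ∃ ζ, ζ = min (1 / 2) (ε / (12 * X)) := ⟨_, rfl⟩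
  have hζ0 : 0 < ζ := by rw [hζ]; positivity
  have hζ1 : ζ ≤ 1 / 2 := by rw [hζ]; exact min_le_left _ _
  have hζ2 : 12 * X * ζ ≤ ε := by
    have : ζ ≤ ε / (12 * X) := by rw [hζ]; exact min_le_right _ _
    rw [le_div_iff₀ (by positivity)] at this
    linarith
  obtain ⟨j, hj⟩ := exists_pow_lt_of_lt_one hζ0 (show 1 - ζ < 1 by linarith)
  refine ⟨ζ, hζ0, by linarith, 1 - ζ, by linarith, by linarith, j, ?_⟩
  have h1 : 1 - 3 * ζ ≤ (1 - ζ) ^ 3 := by nlinarith [mul_nonneg hζ0.le (sq_nonneg ζ), sq_nonneg ζ]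
  have h2 : (2 - ζ) * (1 - ζ) ≤ (1 + (1 - ζ)) * (1 - (1 - ζ) ^ j) := by
    have : (2 - ζ) * (1 - ζ) ≤ (2 - ζ) * (1 - (1 - ζ) ^ j) :=
      mul_le_mul_of_nonneg_left (by linarith) (by linarith)
    linarith
  have h3 : (0:ℝ) ≤ (1 - ζ) ^ 3 := by
    have : 0 ≤ 1 - ζ := by linarith
    positivity
  have h4 : 2 - 12 * ζ ≤ (1 - ζ) ^ 3 * ((2 - ζ) * (1 - ζ)) := by
    have h5 : 0 ≤ (2 - ζ) * (1 - ζ) := mul_nonneg (by linarith) (by linarith)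
    have h6 := mul_le_mul_of_nonneg_right h1 h5
    nlinarith [mul_nonneg hζ0.le (sq_nonneg ζ), sq_nonneg ζ]
  calc 2 * X - ε ≤ X * (2 - 12 * ζ) := by linarith
    _ ≤ X * ((1 - ζ) ^ 3 * ((2 - ζ) * (1 - ζ))) := mul_le_mul_of_nonneg_left h4 hX.le
    _ ≤ X * ((1 - ζ) ^ 3 * ((1 + (1 - ζ)) * (1 - (1 - ζ) ^ j))) := by gcongr
    _ = _ := by ring

theorem gm_of (hLAT : S_LAT) (hSL : S_SL) (hSU : S_SU) : S_GM := by
  intro m hm v hvm hv h0 he hne ε hε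
  have hG := scatG_pos hSU hm hvm hv h0 he hne
  have hPb := P0_pos (show 0 < 1 / (2 * m) by positivity)
  have hPi := Real.pi_pos
  obtain ⟨X, hX⟩ : ∃ X, X = scatG m v ^ 2 * Real.pi ^ 2 / (2 * P0 (1 / (2 * m))) := ⟨_, rfl⟩
  have hX0 : 0 < X := by rw [hX]; positivity
  obtain ⟨ζ, hζ0, hζ1, s, hs0, hs1, j, hj⟩ := choice hX0 (show 0 < ε / 2 by positivity)
  obtain ⟨δ, η0, hδ, hη0, H⟩ := tele hLAT hSL hSU hm hvm hv h0 he hne hζ0 hζ1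
  refine ⟨δ, hδ, fun μ hμ hμδ => ?_⟩
  have hsμ := Real.sqrt_pos.2 hμ
  obtain ⟨L, hL, H2⟩ := H s hs0 hs1 j μ hμ hμδ (min η0 (ε / 2 * √μ)) (by positivity)
    (min_le_left _ _)
  refine ⟨L, hL, fun ℓ hℓ => ?_⟩
  obtain ⟨K1, hK1⟩ := H2 ℓ hℓ
  refine ⟨K1, fun K hK hKn => ?_⟩
  filter_upwards [hK1 K hK hKn] with R hR c
  have h1 := hR c
  rw [← hX] at h1
  have h2 : min η0 (ε / 2 * √μ) ≤ ε / 2 * √μ := min_le_right _ _
  have h3 := mul_le_mul_of_nonneg_right hj hsμ.le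
  have h4 : scatG m v ^ 2 * Real.pi ^ 2 / P0 (1 / (2 * m)) = 2 * X := by
    rw [hX]; field_simp
  rw [h4]
  have h5 : (2 * X - ε) * √μ = (2 * X - ε / 2) * √μ - ε / 2 * √μ := by ring
  linarith

end

end Pool.Agent.H751R2.LHY.G80.GM70

namespace Pool.Agent.J6H70.BG

/-- **GM** -/
theorem gm : Pool.Agent.J6H80.BG.S_GM :=
  Pool.Agent.H751R2.LHY.G80.GM70.gm_of Pool.Agent.J6H48.BG.lat Pool.Agent.J6H76.BG.t_SL
    Pool.Agent.J6H47.BG.su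

end Pool.Agent.J6H70.BG
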